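import Mathlib

set_option autoImplicit false

namespace Pool.Agent.Results.MP_593b6a_co.GluedCliques

/-- The `k`-multiset graph `M_k(G)`. Its vertices are the multisets of size `k` on the vertex set
of `G` (the type `Sym V k`). Two of them, `A` and `B`, are adjacent exactly when `B` arises from `A`
by removing one copy of a vertex `u` and adding one copy of a neighbour `v` of `u`. -/
def multisetGraph {V : Type*} (G : SimpleGraph V) (k : ℕ) : SimpleGraph (Sym V k) where
  Adj A B := ∃ (u v : V) (C : Multiset V),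
    G.Adj u v ∧ (A : Multiset V) = u ::ₘ C ∧ (B : Multiset V) = v ::ₘ C
  symm := ⟨fun _ _ ⟨u, v, C, h, hA, hB⟩ => ⟨v, u, C, h.symm, hB, hA⟩⟩
  loopless := ⟨fun A ⟨u, v, C, h, hA, hB⟩ => by
    have h1 : u ::ₘ C = v ::ₘ C := by rw [← hA, ← hB]
    exact h.ne ((Multiset.cons_inj_left C).1 h1)⟩

/-! ### Paths as lists -/

/-- `L` lists a walk of the relation `R` from `a` to `b`. -/
structure LP {α : Type*} (R : α → α → Prop) (a b : α) (L : List α) : Prop where
  chain : L.IsChain R
  head : L.head? = some a
  last : L.getLast? = some b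

namespace LP

variable {α β : Type*} {R : α → α → Prop} {S : β → β → Prop}

theorem single (a : α) : LP R a a [a] := ⟨List.isChain_singleton a, rfl, rfl⟩

theorem append {a b c d : α} {L L' : List α} (h : LP R a b L) (hbc : R b c) (h' : LP R c d L') :
    LP R a d (L ++ L') := by
  refine ⟨?_, ?_, ?_⟩
  · rw [List.isChain_append]
    refine ⟨h.chain, h'.chain, ?_⟩
    intro x hx y hy
    rw [h.last] at hx
    rw [h'.head] at hy
    simp only [Option.mem_def, Option.some.injEq] at hx hy
    subst hx; subst hy; exact hbc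
  · rw [List.head?_append, h.head]; rfl
  · rw [List.getLast?_append, h'.last]; rfl

theorem map {a b : α} {L : List α} (f : α → β) (hf : ∀ x y, R x y → S (f x) (f y))
    (h : LP R a b L) : LP S (f a) (f b) (L.map f) := by
  refine ⟨?_, ?_, ?_⟩
  · rw [List.isChain_map]
    exact h.chain.imp (fun x y => hf x y)
  · rw [List.head?_map, h.head]; rfl
  · rw [List.getLast?_map, h.last]; rfl

theorem reverse {a b : α} {L : List α} (hs : ∀ x y, R x y → R y x) (h : LP R a b L) :
    LP R b a L.reverse := by
  refine ⟨?_, ?_, ?_⟩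
  · rw [List.isChain_reverse]
    exact h.chain.imp (fun x y hxy => hs x y hxy)
  · rw [List.head?_reverse, h.last]
  · rw [List.getLast?_reverse, h.head]

theorem mono {R' : α → α → Prop} {a b : α} {L : List α} (hs : ∀ x y, R x y → R' x y)
    (h : LP R a b L) : LP R' a b L :=
  ⟨h.chain.imp (fun x y => hs x y), h.head, h.last⟩

end LP

/-! ### Moves of multisets -/

section moves

variable {V : Type*} (G : SimpleGraph V)

/-- Two multisets differ by moving one element along an edge of `G`. -/
def madj (A B : Multiset V) : Prop :=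
  ∃ (u v : V) (C : Multiset V), G.Adj u v ∧ A = u ::ₘ C ∧ B = v ::ₘ C

theorem madj_symm {A B : Multiset V} (h : madj G A B) : madj G B A := by
  obtain ⟨u, v, C, h, hA, hB⟩ := h
  exact ⟨v, u, C, h.symm, hB, hA⟩

theorem madj_cons {A B : Multiset V} (x : V) (h : madj G A B) : madj G (x ::ₘ A) (x ::ₘ B) := by
  obtain ⟨u, v, C, h, hA, hB⟩ := h
  refine ⟨u, v, x ::ₘ C, h, ?_, ?_⟩
  · rw [hA, Multiset.cons_swap]
  · rw [hB, Multiset.cons_swap]

theorem madj_add {A B : Multiset V} (D : Multiset V) (h : madj G A B) : madj G (D + A) (D + B) := by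
  obtain ⟨u, v, C, h, hA, hB⟩ := h
  refine ⟨u, v, D + C, h, ?_, ?_⟩
  · rw [hA, Multiset.add_cons]
  · rw [hB, Multiset.add_cons]

theorem madj_add_right {A B : Multiset V} (D : Multiset V) (h : madj G A B) :
    madj G (A + D) (B + D) := by
  rw [add_comm A, add_comm B]; exact madj_add G D h

/-- Full listing of the `k`-multisets over a clique `S`, from `a^k` to `d^k`. -/
theorem clique_path [DecidableEq V] (n : ℕ) : ∀ (S : Finset V), S.card = n →
    (∀ u ∈ S, ∀ v ∈ S, u ≠ v → G.Adj u v) → ∀ (k : ℕ) (a d : V), a ∈ S → d ∈ S →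
    (a = d → S = {a}) →
    ∃ L : List (Multiset V), LP (madj G) (Multiset.replicate k a) (Multiset.replicate k d) L ∧
      L.Nodup ∧ L.length = Nat.multichoose n k ∧
      ∀ A, A ∈ L ↔ (Multiset.card A = k ∧ ∀ x ∈ A, x ∈ S) := by
  induction n with
  | zero =>
    intro S hS _ k a d ha
    rw [Finset.card_eq_zero] at hS
    subst hS; simp at ha
  | succ n ih =>
    intro S hS hG k
    induction k with
    | zero =>
      intro a d _ _ _
      refine ⟨[0], ?_, by simp, by simp, ?_⟩
      · simpa using LP.single (R := madj G) (0 : Multiset V)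
      · intro A
        constructor
        · intro h
          simp only [List.mem_singleton] at h
          subst h; simp
        · rintro ⟨h, _⟩
          rw [Multiset.card_eq_zero] at h
          simp [h]
    | succ k ihk =>
      intro a d ha hd had
      by_cases hEq : a = d
      · subst hEq
        have hSa := had rfl
        have hn1 : n = 0 := by
          rw [hSa, Finset.card_singleton] at hS; omega
        subst hn1
        refine ⟨[Multiset.replicate (k+1) a], LP.single _, by simp, by simp, ?_⟩
        intro A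
        simp only [List.mem_singleton]
        rw [Multiset.eq_replicate, hSa]
        simp
      · have ha' : a ∈ S.erase d := Finset.mem_erase.2 ⟨hEq, ha⟩
        have hcard : (S.erase d).card = n := by
          rw [Finset.card_erase_of_mem hd, hS]; rfl
        obtain ⟨e, he, hae⟩ : ∃ e ∈ S.erase d, (a = e → S.erase d = {a}) := by
          by_cases h1 : S.erase d = {a}
          · exact ⟨a, ha', fun _ => h1⟩
          · have : ∃ e ∈ S.erase d, e ≠ a := by
              by_contra hcon
              push Not at hcon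
              exact h1 (Finset.eq_singleton_iff_unique_mem.2 ⟨ha', hcon⟩)
            obtain ⟨e, he, hne⟩ := this
            exact ⟨e, he, fun h => absurd h.symm hne⟩
        have heS := Finset.mem_of_mem_erase he
        have hed := Finset.ne_of_mem_erase he
        obtain ⟨L1, hL1, hN1, hC1, hM1⟩ := ih (S.erase d) hcard
          (fun u hu v hv => hG u (Finset.mem_of_mem_erase hu) v (Finset.mem_of_mem_erase hv))
          (k+1) a e ha' he hae
        obtain ⟨L2, hL2, hN2, hC2, hM2⟩ := ihk e d heS hd (fun h => absurd h hed)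
        refine ⟨L1 ++ L2.map (d ::ₘ ·), ?_, ?_, ?_, ?_⟩
        · rw [Multiset.replicate_succ d k]
          refine hL1.append ?_ (hL2.map (d ::ₘ ·) (fun x y h => madj_cons G d h))
          exact ⟨e, d, Multiset.replicate k e, hG e heS d hd hed, Multiset.replicate_succ e k, rfl⟩
        · rw [List.nodup_append']
          refine ⟨hN1, hN2.map (fun x y h => (Multiset.cons_inj_right d).1 h), ?_⟩
          intro A hA1 hA2
          rw [List.mem_map] at hA2
          obtain ⟨B, _, rfl⟩ := hA2
          have := ((hM1 _).1 hA1).2 d (Multiset.mem_cons_self d B)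
          simp at this
        · rw [List.length_append, List.length_map, hC1, hC2, Nat.multichoose_succ_succ]
        · intro A
          rw [List.mem_append, hM1, List.mem_map]
          constructor
          · rintro (⟨h1, h2⟩ | ⟨B, hB, rfl⟩)
            · exact ⟨h1, fun x hx => Finset.mem_of_mem_erase (h2 x hx)⟩
            · obtain ⟨h1, h2⟩ := (hM2 B).1 hB
              refine ⟨by simp [h1], ?_⟩
              intro x hx
              rw [Multiset.mem_cons] at hx
              rcases hx with rfl | hx
              · exact hd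
              · exact h2 x hx
          · rintro ⟨h1, h2⟩
            by_cases hdA : d ∈ A
            · right
              refine ⟨A.erase d, ?_, Multiset.cons_erase hdA⟩
              rw [hM2]
              refine ⟨by rw [Multiset.card_erase_of_mem hdA, h1]; rfl, ?_⟩
              intro x hx
              exact h2 x (Multiset.mem_of_mem_erase hx)
            · left
              refine ⟨h1, fun x hx => Finset.mem_erase.2 ⟨?_, h2 x hx⟩⟩
              rintro rfl
              exact hdA hx

/-- Full listing of the `(j+1)`-multisets over a clique `S` with at least three elements, from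
`c^(j+1)` to `c^j z`. -/
theorem clique_fibre [DecidableEq V] (S : Finset V) (hG : ∀ u ∈ S, ∀ v ∈ S, u ≠ v → G.Adj u v)
    {c z w : V} (hc : c ∈ S) (hz : z ∈ S) (hw : w ∈ S) (hcz : c ≠ z) (hcw : c ≠ w) (hzw : z ≠ w)
    (j : ℕ) :
    ∃ L : List (Multiset V),
      LP (madj G) (Multiset.replicate (j+1) c) (z ::ₘ Multiset.replicate j c) L ∧
      L.Nodup ∧ ∀ A, A ∈ L ↔ (Multiset.card A = j + 1 ∧ ∀ x ∈ A, x ∈ S) := by
  obtain ⟨L1, hL1, hN1, -, hM1⟩ := clique_path G _ (S.erase z) rfl
    (fun u hu v hv => hG u (Finset.mem_of_mem_erase hu) v (Finset.mem_of_mem_erase hv))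
    (j+1) c w (Finset.mem_erase.2 ⟨hcz, hc⟩) (Finset.mem_erase.2 ⟨hzw.symm, hw⟩)
    (fun h => absurd h hcw)
  obtain ⟨L2, hL2, hN2, -, hM2⟩ := clique_path G _ S rfl hG j w c hw hc (fun h => absurd h hcw.symm)
  refine ⟨L1 ++ L2.map (z ::ₘ ·), ?_, ?_, ?_⟩
  · refine hL1.append ?_ (hL2.map (z ::ₘ ·) (fun x y h => madj_cons G z h))
    exact ⟨w, z, Multiset.replicate j w, hG w hw z hz hzw.symm, Multiset.replicate_succ w j, rfl⟩
  · rw [List.nodup_append']
    refine ⟨hN1, hN2.map (fun x y h => (Multiset.cons_inj_right z).1 h), ?_⟩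
    intro A hA1 hA2
    rw [List.mem_map] at hA2
    obtain ⟨B, _, rfl⟩ := hA2
    have := ((hM1 _).1 hA1).2 z (Multiset.mem_cons_self z B)
    simp at this
  · intro A
    rw [List.mem_append, hM1, List.mem_map]
    constructor
    · rintro (⟨h1, h2⟩ | ⟨B, hB, rfl⟩)
      · exact ⟨h1, fun x hx => Finset.mem_of_mem_erase (h2 x hx)⟩
      · obtain ⟨h1, h2⟩ := (hM2 B).1 hB
        refine ⟨by simp [h1], ?_⟩
        intro x hx
        rw [Multiset.mem_cons] at hx
        rcases hx with rfl | hx
        · exact hz
        · exact h2 x hx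
    · rintro ⟨h1, h2⟩
      by_cases hdA : z ∈ A
      · right
        refine ⟨A.erase z, ?_, Multiset.cons_erase hdA⟩
        rw [hM2]
        refine ⟨by rw [Multiset.card_erase_of_mem hdA, h1]; rfl, ?_⟩
        intro x hx
        exact h2 x (Multiset.mem_of_mem_erase hx)
      · left
        refine ⟨h1, fun x hx => Finset.mem_erase.2 ⟨?_, h2 x hx⟩⟩
        rintro rfl
        exact hdA hx

/-- Snake through fibres over an even-length walk. -/
theorem snake (F : Multiset V → List (Multiset V)) (c z : V) (n : ℕ) :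
    ∀ (Lb : List (Multiset V)), Lb.length = 2 * n →
    (∀ B ∈ Lb, LP (madj G) (c ::ₘ B) (z ::ₘ B) (F B)) → ∀ x y, LP (madj G) x y Lb →
    ∃ L : List (Multiset V), LP (madj G) (c ::ₘ x) (c ::ₘ y) L ∧ L.Perm (Lb.flatMap F) := by
  induction n with
  | zero =>
    intro Lb hlen hF x y hxy
    have : Lb = [] := List.eq_nil_of_length_eq_zero (by simpa using hlen)
    subst this
    have := hxy.head
    simp at this
  | succ n ih =>
    intro Lb hlen hF x y hxy
    match Lb, hlen, hF, hxy with
    | [], hlen, _, _ => simp at hlen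
    | [B], hlen, _, _ => simp at hlen; omega
    | [B, B'], hlen, hF, hxy =>
      have hx : B = x := by simpa using hxy.head
      have hy : B' = y := by simpa using hxy.last
      subst hx; subst hy
      have hadj : madj G B B' := by simpa using hxy.chain
      refine ⟨F B ++ (F B').reverse, ?_, ?_⟩
      · refine (hF B (by simp)).append (madj_cons G z hadj) ?_
        exact (hF B' (by simp)).reverse (fun _ _ h => madj_symm G h)
      · simp only [List.flatMap_cons, List.flatMap_nil, List.append_nil]
        exact List.Perm.append_left _ (List.reverse_perm _)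
    | (B :: B' :: B'' :: t), hlen, hF, hxy =>
      have hx : B = x := by simpa using hxy.head
      subst hx
      have hch := hxy.chain
      rw [List.isChain_cons_cons, List.isChain_cons_cons] at hch
      obtain ⟨h1, h2, h3⟩ := hch
      have hlast : (B'' :: t).getLast? = some y := by
        have := hxy.last
        rwa [List.getLast?_cons_cons, List.getLast?_cons_cons] at this
      obtain ⟨L, hL, hp⟩ := ih (B'' :: t) (by simp at hlen ⊢; omega)
        (fun A hA => hF A (by simp only [List.mem_cons] at hA ⊢; tauto)) B'' y ⟨h3, rfl, hlast⟩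
      refine ⟨F B ++ (F B').reverse ++ L, ?_, ?_⟩
      · refine LP.append ?_ (madj_cons G c h2) hL
        refine (hF B (by simp)).append (madj_cons G z h1) ?_
        exact (hF B' (by simp)).reverse (fun _ _ h => madj_symm G h)
      · rw [List.flatMap_cons, List.flatMap_cons, ← List.append_assoc]
        exact List.Perm.append (List.Perm.append_left _ (List.reverse_perm _)) hp

/-- Cyclic listing of all `(k+1)`-multisets for two cliques glued at a vertex `c`. -/
theorem glued_list [DecidableEq V] (S₁ S₂ : Finset V) (c : V)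
    (hc1 : c ∈ S₁) (hc2 : c ∈ S₂) (hint : ∀ v, v ∈ S₁ → v ∈ S₂ → v = c)
    (hcov : ∀ v, v ∈ S₁ ∨ v ∈ S₂)
    (hG1 : ∀ u ∈ S₁, ∀ v ∈ S₁, u ≠ v → G.Adj u v)
    (hG2 : ∀ u ∈ S₂, ∀ v ∈ S₂, u ≠ v → G.Adj u v)
    (h1 : 3 ≤ S₁.card) (h2 : 3 ≤ S₂.card) (k : ℕ) (heven : 2 ∣ Nat.multichoose S₂.card k) :
    ∃ (L : List (Multiset V)) (a b : Multiset V), LP (madj G) a b L ∧ madj G b a ∧ L.Nodup ∧
      ∀ A, A ∈ L ↔ Multiset.card A = k + 1 := by
  -- choose the special vertices
  obtain ⟨x, y, hx, hy, hxy⟩ : ∃ x y, x ∈ S₂.erase c ∧ y ∈ S₂.erase c ∧ x ≠ y := by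
    have : 1 < (S₂.erase c).card := by rw [Finset.card_erase_of_mem hc2]; omega
    obtain ⟨x, hx, y, hy, hxy⟩ := Finset.one_lt_card.1 this
    exact ⟨x, y, hx, hy, hxy⟩
  obtain ⟨z, w, hz, hw, hzw⟩ : ∃ x y, x ∈ S₁.erase c ∧ y ∈ S₁.erase c ∧ x ≠ y := by
    have : 1 < (S₁.erase c).card := by rw [Finset.card_erase_of_mem hc1]; omega
    obtain ⟨x, hx, y, hy, hxy⟩ := Finset.one_lt_card.1 this
    exact ⟨x, y, hx, hy, hxy⟩
  have hxS := Finset.mem_of_mem_erase hx
  have hyS := Finset.mem_of_mem_erase hy
  have hzS := Finset.mem_of_mem_erase hz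
  have hwS := Finset.mem_of_mem_erase hw
  have hxc := Finset.ne_of_mem_erase hx
  have hyc := Finset.ne_of_mem_erase hy
  have hzc := Finset.ne_of_mem_erase hz
  have hwc := Finset.ne_of_mem_erase hw
  -- the multisets avoiding `S₁`
  obtain ⟨L0, hL0, hN0, -, hM0⟩ := clique_path G _ (S₂.erase c) rfl
    (fun u hu v hv => hG2 u (Finset.mem_of_mem_erase hu) v (Finset.mem_of_mem_erase hv))
    (k+1) x y hx hy (fun h => absurd h hxy)
  -- the index walk
  obtain ⟨Lb, hLb, hNb, hCb, hMb⟩ := clique_path G _ S₂ rfl hG2 k y x hyS hxS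
    (fun h => absurd h.symm hxy)
  -- the fibres
  choose Fj hFj hFN hFM using fun j => clique_fibre G S₁ hG1 hc1 hzS hwS hzc.symm hwc.symm hzw j
  set F : Multiset V → List (Multiset V) := fun B =>
    (Fj (B.count c)).map (fun X => B.filter (fun v => v ≠ c) + X) with hF
  have hBdec : ∀ B : Multiset V,
      B.filter (fun v => v ≠ c) + Multiset.replicate (B.count c) c = B := by
    intro B
    rw [← Multiset.filter_eq' B c, add_comm]
    exact Multiset.filter_add_not (fun v => v = c) B
  have hFLP : ∀ B, LP (madj G) (c ::ₘ B) (z ::ₘ B) (F B) := by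
    intro B
    have := (hFj (B.count c)).map (S := madj G) (fun X => B.filter (fun v => v ≠ c) + X)
      (fun _ _ h => madj_add G _ h)
    rw [Multiset.replicate_succ, Multiset.add_cons, Multiset.add_cons, hBdec] at this
    exact this
  obtain ⟨m, hm⟩ := heven
  obtain ⟨L1, hL1, hP1⟩ := snake G F c z m Lb (by rw [hCb, hm]) (fun B _ => hFLP B) _ _ hLb
  -- membership in the fibres
  have hFmem : ∀ B A, A ∈ F B ↔ ∃ X : Multiset V, Multiset.card X = B.count c + 1 ∧
      (∀ v ∈ X, v ∈ S₁) ∧ A = B.filter (fun v => v ≠ c) + X := by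
    intro B A
    simp only [hF, List.mem_map]
    constructor
    · rintro ⟨X, hX, rfl⟩
      obtain ⟨h3, h4⟩ := (hFM _ X).1 hX
      exact ⟨X, h3, h4, rfl⟩
    · rintro ⟨X, h3, h4, rfl⟩
      exact ⟨X, (hFM _ X).2 ⟨h3, h4⟩, rfl⟩
  have hfilt1 : ∀ B : Multiset V, (∀ v ∈ B, v ∈ S₂) → ∀ X : Multiset V, (∀ v ∈ X, v ∈ S₁) →
      (B.filter (fun v => v ≠ c) + X).filter (fun v => v ∉ S₁) = B.filter (fun v => v ≠ c) := by
    intro B hB X hX
    rw [Multiset.filter_add]
    have e1 : X.filter (fun v => v ∉ S₁) = 0 :=
      Multiset.filter_eq_nil.2 (fun v hv h => h (hX v hv))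
    have e2 : (B.filter (fun v => v ≠ c)).filter (fun v => v ∉ S₁)
        = B.filter (fun v => v ≠ c) := by
      rw [Multiset.filter_eq_self]
      intro v hv h
      rw [Multiset.mem_filter] at hv
      exact hv.2 (hint v h (hB v hv.1))
    rw [e1, e2, add_zero]
  have hmem1 : ∀ A, A ∈ Lb.flatMap F ↔ (Multiset.card A = k + 1 ∧ ∃ v ∈ A, v ∈ S₁) := by
    intro A
    rw [List.mem_flatMap]
    constructor
    · rintro ⟨B, hB, hA⟩
      obtain ⟨hBk, hBS⟩ := (hMb B).1 hB
      obtain ⟨X, hXc, hXS, rfl⟩ := (hFmem B A).1 hA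
      constructor
      · rw [Multiset.card_add, hXc]
        have := congrArg Multiset.card (hBdec B)
        rw [Multiset.card_add, Multiset.card_replicate, hBk] at this
        omega
      · have : X ≠ 0 := by
          rintro rfl
          simp at hXc
        obtain ⟨v, hv⟩ := Multiset.exists_mem_of_ne_zero this
        exact ⟨v, Multiset.mem_add.2 (Or.inr hv), hXS v hv⟩
    · rintro ⟨hA, v, hv, hvS⟩
      set X := A.filter (fun v => v ∈ S₁) with hX
      set Y := A.filter (fun v => v ∉ S₁) with hY
      have hXY : X + Y = A := Multiset.filter_add_not (fun v => v ∈ S₁) A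
      have hXpos : 0 < Multiset.card X := by
        rw [Multiset.card_pos_iff_exists_mem]
        exact ⟨v, Multiset.mem_filter.2 ⟨hv, hvS⟩⟩
      have hYc : c ∉ Y := fun h => (Multiset.mem_filter.1 h).2 hc1
      obtain ⟨i, hi⟩ : ∃ i, Multiset.card X = i + 1 := ⟨Multiset.card X - 1, by omega⟩
      have hcnt : (Y + Multiset.replicate i c).count c = i := by
        rw [Multiset.count_add, Multiset.count_eq_zero_of_notMem hYc, Multiset.count_replicate_self,
          zero_add]
      have hfl : (Y + Multiset.replicate i c).filter (fun v => v ≠ c) = Y := by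
        rw [Multiset.filter_add]
        have e1 : Y.filter (fun v => v ≠ c) = Y := by
          rw [Multiset.filter_eq_self]
          rintro v hv rfl
          exact hYc hv
        have e2 : (Multiset.replicate i c).filter (fun v => v ≠ c) = 0 := by
          rw [Multiset.filter_eq_nil]
          intro v hv h
          exact h (Multiset.eq_of_mem_replicate hv)
        rw [e1, e2, add_zero]
      refine ⟨Y + Multiset.replicate i c, ?_, ?_⟩
      · rw [hMb]
        constructor
        · rw [Multiset.card_add, Multiset.card_replicate]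
          have := congrArg Multiset.card hXY
          rw [Multiset.card_add, hA, hi] at this
          omega
        · intro u hu
          rw [Multiset.mem_add] at hu
          rcases hu with hu | hu
          · exact (hcov u).resolve_left (Multiset.mem_filter.1 hu).2
          · rw [Multiset.eq_of_mem_replicate hu]; exact hc2
      · rw [hFmem, hcnt, hfl]
        exact ⟨X, hi, fun u hu => (Multiset.mem_filter.1 hu).2, by rw [add_comm, hXY]⟩
  refine ⟨L0 ++ L1, _, _, hL0.append ?_ hL1, ?_, ?_, ?_⟩
  · exact ⟨y, c, Multiset.replicate k y, hG2 y hyS c hc2 hyc, Multiset.replicate_succ y k, rfl⟩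
  · exact ⟨c, x, Multiset.replicate k x, hG2 c hc2 x hxS hxc.symm, rfl, Multiset.replicate_succ x k⟩
  · rw [List.nodup_append']
    refine ⟨hN0, ?_, ?_⟩
    · rw [hP1.nodup_iff, List.nodup_flatMap]
      constructor
      · intro B _
        exact (hFN _).map (fun X Y h => add_left_cancel h)
      · refine hNb.imp_of_mem ?_
        intro B B' hB hB' hne A hA hA'
        apply hne
        obtain ⟨hBk, hBS⟩ := (hMb B).1 hB
        obtain ⟨hBk', hBS'⟩ := (hMb B').1 hB'
        obtain ⟨X, hXc, hXS, rfl⟩ := (hFmem B A).1 hA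
        obtain ⟨X', hXc', hXS', hE⟩ := (hFmem B' _).1 hA'
        have e1 := hfilt1 B hBS X hXS
        rw [hE, hfilt1 B' hBS' X' hXS'] at e1
        have e2 : B.count c = B'.count c := by
          have t1 := congrArg Multiset.card (hBdec B)
          have t2 := congrArg Multiset.card (hBdec B')
          rw [Multiset.card_add, Multiset.card_replicate, hBk] at t1
          rw [Multiset.card_add, Multiset.card_replicate, hBk', e1] at t2
          omega
        rw [← hBdec B, ← hBdec B', e1, e2]
    · intro A hA0 hA1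
      rw [hP1.mem_iff, hmem1] at hA1
      obtain ⟨_, v, hv, hvS⟩ := hA1
      have := ((hM0 A).1 hA0).2 v hv
      exact Finset.ne_of_mem_erase this (hint v hvS (Finset.mem_of_mem_erase this))
  · intro A
    rw [List.mem_append, hP1.mem_iff, hmem1, hM0]
    constructor
    · rintro (h | h) <;> exact h.1
    · intro h
      by_cases hv : ∃ v ∈ A, v ∈ S₁
      · exact Or.inr ⟨h, hv⟩
      · left
        refine ⟨h, fun v hvA => ?_⟩
        push Not at hv
        refine Finset.mem_erase.2 ⟨?_, (hcov v).resolve_left (hv v hvA)⟩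
        rintro rfl
        exact hv v hvA hc1

end moves

/-! ### From lists to Hamiltonian cycles -/

theorem exists_walk_of_LP {W : Type*} (H : SimpleGraph W) :
    ∀ (L : List W) (a b : W), LP H.Adj a b L → ∃ p : H.Walk a b, p.support = L
  | [], a, b, h => by have := h.head; simp at this
  | [x], a, b, h => by
    have h1 : x = a := by simpa using h.head
    have h2 : x = b := by simpa using h.last
    subst h1; subst h2
    exact ⟨SimpleGraph.Walk.nil, rfl⟩
  | (x :: y :: t), a, b, h => by
    have h1 : x = a := by simpa using h.head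
    subst h1
    have hch := h.chain
    rw [List.isChain_cons_cons] at hch
    have hlast : (y :: t).getLast? = some b := by
      have := h.last
      rwa [List.getLast?_cons_cons] at this
    obtain ⟨p, hp⟩ := exists_walk_of_LP H (y :: t) y b ⟨hch.2, rfl, hlast⟩
    exact ⟨SimpleGraph.Walk.cons hch.1 p, by rw [SimpleGraph.Walk.support_cons, hp]⟩

theorem isHamiltonian_of_LP {W : Type*} [Fintype W] [DecidableEq W] (H : SimpleGraph W)
    {L : List W} {a b : W} (h : LP H.Adj a b L) (hba : H.Adj b a) (hn : L.Nodup)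
    (hall : ∀ w, w ∈ L) (hlen : 3 ≤ L.length) : H.IsHamiltonian := by
  intro _
  obtain ⟨p, hp⟩ := exists_walk_of_LP H L a b h
  have hpath : p.IsPath := by rw [SimpleGraph.Walk.isPath_def, hp]; exact hn
  have hpl : p.length + 1 = L.length := by rw [← hp, SimpleGraph.Walk.length_support]
  refine ⟨b, SimpleGraph.Walk.cons hba p, ?_⟩
  rw [SimpleGraph.Walk.isHamiltonianCycle_iff_isCycle_and_length_eq]
  constructor
  · rw [SimpleGraph.Walk.cons_isCycle_iff]
    refine ⟨hpath, fun hmem => ?_⟩
    rw [Sym2.eq_swap] at hmem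
    have := hpath.length_eq_one_of_mem_edges hmem
    omega
  · rw [SimpleGraph.Walk.length_cons, hpl, ← List.toFinset_card_of_nodup hn]
    have : L.toFinset = Finset.univ := by
      ext w; simp [hall w]
    rw [this, Finset.card_univ]

/-- Two cliques with at least three vertices glued at one vertex: the `(k+1)`-multiset graph is
Hamiltonian as soon as the number of `k`-multisets over one of the cliques is even. -/
theorem glued_hamiltonian {V : Type*} [Fintype V] [DecidableEq V] (G : SimpleGraph V)
    (S₁ S₂ : Finset V) (c : V)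
    (hc1 : c ∈ S₁) (hc2 : c ∈ S₂) (hint : ∀ v, v ∈ S₁ → v ∈ S₂ → v = c)
    (hcov : ∀ v, v ∈ S₁ ∨ v ∈ S₂)
    (hG1 : ∀ u ∈ S₁, ∀ v ∈ S₁, u ≠ v → G.Adj u v)
    (hG2 : ∀ u ∈ S₂, ∀ v ∈ S₂, u ≠ v → G.Adj u v)
    (h1 : 3 ≤ S₁.card) (h2 : 3 ≤ S₂.card) (k : ℕ) (heven : 2 ∣ Nat.multichoose S₂.card k) :
    (multisetGraph G (k + 1)).IsHamiltonian := by
  obtain ⟨L, a, b, hL, hba, hN, hM⟩ := glued_list G S₁ S₂ c hc1 hc2 hint hcov hG1 hG2 h1 h2 k heven
  have hlift : ∀ A ∈ L, Multiset.card A = k + 1 := fun A hA => (hM A).1 hA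
  have haL : a ∈ L := List.mem_of_mem_head? hL.head
  have hbL : b ∈ L := List.mem_of_mem_getLast? hL.last
  obtain ⟨L', hmap⟩ : ∃ L' : List (Sym V (k + 1)),
      L'.map (fun A : Sym V (k+1) => (A : Multiset V)) = L := by
    clear hL hba hN hM haL hbL
    induction L with
    | nil => exact ⟨[], rfl⟩
    | cons A t ih =>
      obtain ⟨t', ht'⟩ := ih (fun B hB => hlift B (List.mem_cons_of_mem A hB))
      refine ⟨Sym.mk A (hlift A List.mem_cons_self) :: t', ?_⟩
      rw [List.map_cons, ht']
      rfl
  have hinj : Function.Injective (fun A : Sym V (k+1) => (A : Multiset V)) :=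
    fun A B h => Subtype.ext h
  have hcoe : ∀ A B : Sym V (k+1), (multisetGraph G (k + 1)).Adj A B ↔
      madj G (A : Multiset V) (B : Multiset V) := fun A B => Iff.rfl
  have hLP : LP (multisetGraph G (k + 1)).Adj ⟨a, hlift a haL⟩ ⟨b, hlift b hbL⟩ L' := by
    refine ⟨?_, ?_, ?_⟩
    · have := hL.chain
      rw [← hmap, List.isChain_map] at this
      exact this
    · have := hL.head
      rw [← hmap, List.head?_map, Option.map_eq_some_iff] at this
      obtain ⟨A, hA, hAa⟩ := this
      rw [hA]
      exact congrArg some (Subtype.ext hAa)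
    · have := hL.last
      rw [← hmap, List.getLast?_map, Option.map_eq_some_iff] at this
      obtain ⟨A, hA, hAa⟩ := this
      rw [hA]
      exact congrArg some (Subtype.ext hAa)
  have hN' : L'.Nodup := by
    apply List.Nodup.of_map (fun A : Sym V (k+1) => (A : Multiset V))
    rw [hmap]; exact hN
  have hall : ∀ A : Sym V (k+1), A ∈ L' := by
    intro A
    have h3 : (A : Multiset V) ∈ L := (hM _).2 A.2
    rw [← hmap, List.mem_map] at h3
    obtain ⟨B, hB, hBA⟩ := h3
    rwa [← hinj hBA]
  refine isHamiltonian_of_LP _ hLP ((hcoe _ _).2 hba) hN' hall ?_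
  -- at least three multisets
  obtain ⟨x, y, z, hx, hy, hz, hxy, hxz, hyz⟩ := Finset.two_lt_card_iff.1 (show 2 < S₁.card by omega)
  have hsub : ({Sym.replicate (k+1) x, Sym.replicate (k+1) y, Sym.replicate (k+1) z} :
      Finset (Sym V (k+1))) ⊆ L'.toFinset := fun A _ => List.mem_toFinset.2 (hall A)
  have hrep : ∀ u v : V, u ≠ v → Sym.replicate (k+1) u ≠ Sym.replicate (k+1) v := by
    intro u v huv h
    have : u ∈ Sym.replicate (k+1) v := by
      rw [← h]; simp [Sym.mem_replicate]
    rw [Sym.mem_replicate] at this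
    exact huv this.2
  have hc3 : ({Sym.replicate (k+1) x, Sym.replicate (k+1) y, Sym.replicate (k+1) z} :
      Finset (Sym V (k+1))).card = 3 := by
    rw [Finset.card_eq_three]
    exact ⟨_, _, _, hrep _ _ hxy, hrep _ _ hxz, hrep _ _ hyz, rfl⟩
  calc 3 = _ := hc3.symm
    _ ≤ L'.toFinset.card := Finset.card_le_card hsub
    _ = L'.length := List.toFinset_card_of_nodup hN'

/-! ### Cut vertices -/

theorem side_of_path {V : Type*} (G : SimpleGraph V) (c : V) (side : V → Prop)
    (hside : ∀ u v, G.Adj u v → u ≠ c → v ≠ c → (side u ↔ side v)) :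
    ∀ (u : V) (q : G.Walk u c), q.IsPath → u ≠ c → ∀ x ∈ q.support, x ≠ c → (side x ↔ side u) := by
  intro u q
  induction q with
  | nil => intro _ h; exact absurd rfl h
  | @cons u v w hadj q ih =>
    intro hq hu x hx hxc
    rw [SimpleGraph.Walk.cons_isPath_iff] at hq
    rw [SimpleGraph.Walk.support_cons, List.mem_cons] at hx
    rcases hx with rfl | hx
    · exact Iff.rfl
    · by_cases hv : v = w
      · subst hv
        have : q = SimpleGraph.Walk.nil := SimpleGraph.Walk.eq_nil_iff_nil.2
          (SimpleGraph.Walk.isPath_iff_nil.1 hq.1)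
        rw [this, SimpleGraph.Walk.support_nil, List.mem_singleton] at hx
        exact absurd hx hxc
      · exact (ih hside hq.1 hv x hx hxc).trans (hside u v hadj hu hv).symm

theorem not_isHamiltonian_of_side {V : Type*} [Fintype V] [DecidableEq V] (G : SimpleGraph V)
    (c : V) (side : V → Prop)
    (hside : ∀ u v, G.Adj u v → u ≠ c → v ≠ c → (side u ↔ side v))
    {x y : V} (hx : x ≠ c) (hy : y ≠ c) (hxs : side x) (hys : ¬ side y) : ¬ G.IsHamiltonian := by
  intro hG
  have : Nontrivial V := ⟨x, c, hx⟩
  obtain ⟨p, hp⟩ := hG.exists_isHamiltonianCycle c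
  cases p with
  | nil => exact hp.isCycle.ne_nil rfl
  | @cons _ u _ hadj q =>
    have hcyc := hp.isCycle
    rw [SimpleGraph.Walk.cons_isCycle_iff] at hcyc
    have huc : u ≠ c := hadj.ne.symm
    have hmem : ∀ v, v ≠ c → v ∈ q.support := by
      intro v hv
      have := hp.mem_support v
      rw [SimpleGraph.Walk.support_cons, List.mem_cons] at this
      exact this.resolve_left hv
    have e1 := side_of_path G c side hside u q hcyc.1 huc x (hmem x hx) hx
    have e2 := side_of_path G c side hside u q hcyc.1 huc y (hmem y hy) hy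
    exact hys (e2.2 (e1.1 hxs))

/-- The graph on `Fin n` made of two cliques that share exactly the vertex `0`: the vertices
`0, …, k-1` form one clique, the vertices `0, k, …, n-1` the other. -/
def gluedCliques (k n : ℕ) : SimpleGraph (Fin n) where
  Adj i j := i ≠ j ∧ (i.val = 0 ∨ j.val = 0 ∨ (i.val < k ↔ j.val < k))
  symm := ⟨fun i j ⟨h1, h2⟩ => ⟨h1.symm, by tauto⟩⟩
  loopless := ⟨fun i ⟨h, _⟩ => h rfl⟩

/-- **Main theorem.** For every `k ≥ 3` and every `n ≥ k + 2` there is a connected graph on `n`
vertices that is not Hamiltonian while its `k`-multiset graph is Hamiltonian. -/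
theorem result (k : ℕ) (hk : 3 ≤ k) (n : ℕ) (hn : k + 2 ≤ n) :
    ∃ G : SimpleGraph (Fin n), G.Connected ∧ ¬ G.IsHamiltonian ∧
      (multisetGraph G k).IsHamiltonian := by
  obtain ⟨k', rfl⟩ : ∃ k', k = k' + 1 := ⟨k - 1, by omega⟩
  set c : Fin n := ⟨0, by omega⟩ with hc
  refine ⟨gluedCliques (k'+1) n, ?_, ?_, ?_⟩
  · have : Nonempty (Fin n) := ⟨c⟩
    have hreach : ∀ v : Fin n, (gluedCliques (k'+1) n).Reachable c v := by
      intro v
      by_cases hv : c = v
      · subst hv; exact SimpleGraph.Reachable.refl _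
      · exact SimpleGraph.Adj.reachable ⟨hv, Or.inl rfl⟩
    exact ⟨fun u v => (hreach u).symm.trans (hreach v)⟩
  · refine not_isHamiltonian_of_side (gluedCliques (k'+1) n) c (fun v => v.val < k' + 1) ?_
      (x := ⟨1, by omega⟩) (y := ⟨k' + 1, by omega⟩) ?_ ?_ ?_ ?_
    · rintro u v ⟨_, h⟩ hu hv
      rcases h with h | h | h
      · exact absurd (Fin.ext h) hu
      · exact absurd (Fin.ext h) hv
      · exact h
    · intro h; simp [hc] at h
    · intro h; simp [hc] at h
    · simp; omega
    · simp
  · have hS2card : (Finset.univ.filter (fun v : Fin n => v.val < k' + 1)).card = k' + 1 := by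
      rw [Fin.card_filter_val_lt]; omega
    have hS1card : 3 ≤ (Finset.univ.filter (fun v : Fin n => v.val = 0 ∨ k' + 1 ≤ v.val)).card := by
      have : ({⟨0, by omega⟩, ⟨k'+1, by omega⟩, ⟨k'+2, by omega⟩} : Finset (Fin n)) ⊆
          Finset.univ.filter (fun v : Fin n => v.val = 0 ∨ k' + 1 ≤ v.val) := by
        intro v hv
        simp only [Finset.mem_insert, Finset.mem_singleton] at hv
        simp only [Finset.mem_filter, Finset.mem_univ, true_and]
        rcases hv with rfl | rfl | rfl <;> simp
      refine le_trans (le_of_eq ?_) (Finset.card_le_card this)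
      symm
      rw [Finset.card_eq_three]
      refine ⟨_, _, _, ?_, ?_, ?_, rfl⟩ <;> (intro h; simp at h)
    refine glued_hamiltonian (gluedCliques (k'+1) n)
      (Finset.univ.filter (fun v : Fin n => v.val = 0 ∨ k' + 1 ≤ v.val))
      (Finset.univ.filter (fun v : Fin n => v.val < k' + 1)) c ?_ ?_ ?_ ?_ ?_ ?_ hS1card ?_ k' ?_
    · simp [hc]
    · simp [hc]
    · intro v hv1 hv2
      simp only [Finset.mem_filter, Finset.mem_univ, true_and] at hv1 hv2
      apply Fin.ext
      simp only [hc]
      omega
    · intro v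
      simp only [Finset.mem_filter, Finset.mem_univ, true_and]
      omega
    · intro u hu v hv huv
      simp only [Finset.mem_filter, Finset.mem_univ, true_and] at hu hv
      refine ⟨huv, ?_⟩
      omega
    · intro u hu v hv huv
      simp only [Finset.mem_filter, Finset.mem_univ, true_and] at hu hv
      refine ⟨huv, ?_⟩
      tauto
    · rw [hS2card]; omega
    · rw [hS2card, Nat.multichoose_eq]
      have : k' + 1 + k' - 1 = 2 * k' := by omega
      rw [this]
      exact Nat.two_dvd_centralBinom_of_one_le (by omega)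

end Pool.Agent.Results.MP_593b6a_co.GluedCliques
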